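import Mathlib

/-!
Hausdorff dimension of a set on which some independent linear functionals of the differences are small.
-/

namespace Pool.Agent.Helper69.CD

open Filter Topology Set Module

variable {E F : Type*} [NormedAddCommGroup E] [NormedSpace ℝ E] [FiniteDimensional ℝ E]
  [NormedAddCommGroup F] [NormedSpace ℝ F] [FiniteDimensional ℝ F]

/-- local bound -/
theorem dimH_local (S : Set E) (a : E) (L : E →ₗ[ℝ] F) (hL : Function.Surjective L)
    (h : ∀ ε : ℝ, 0 < ε → ∃ U ∈ 𝓝 a, ∀ x ∈ S ∩ U, ∀ y ∈ S ∩ U, ‖L (x - y)‖ ≤ ε * ‖x - y‖) :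
    ∃ U ∈ 𝓝 a, dimH (S ∩ U) ≤ ((finrank ℝ E - finrank ℝ F : ℕ) : ENNReal) := by
  obtain ⟨R, hR⟩ := L.exists_rightInverse_of_surjective (LinearMap.range_eq_top.mpr hL)
  let R' : F →L[ℝ] E := R.toContinuousLinearMap
  have hRR : ∀ z, R' z = R z := fun z => rfl
  obtain ⟨U, hU, hUS⟩ := h (1 / (2 * (‖R'‖ + 1))) (by positivity)
  refine ⟨U, hU, ?_⟩
  have hLR : ∀ z, L (R z) = z := fun z => by
    have := congrArg (fun f : F →ₗ[ℝ] F => f z) hR
    simpa using this
  let g : ↥(S ∩ U) → LinearMap.ker L := fun x => ⟨x.1 - R (L x.1), by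
    rw [LinearMap.mem_ker, map_sub, hLR, sub_self]⟩
  have hg : AntilipschitzWith 2 g := by
    refine AntilipschitzWith.of_le_mul_dist fun x y => ?_
    have h1 := hUS x.1 x.2 y.1 y.2
    have h2 : dist (g x) (g y) = ‖(x.1 - y.1) - R (L (x.1 - y.1))‖ := by
      rw [Subtype.dist_eq, dist_eq_norm]
      congr 1
      simp only [g, map_sub]
      abel
    have h3 : ‖R (L (x.1 - y.1))‖ ≤ 1 / 2 * ‖x.1 - y.1‖ := by
      calc ‖R (L (x.1 - y.1))‖ = ‖R' (L (x.1 - y.1))‖ := rfl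
        _ ≤ ‖R'‖ * ‖L (x.1 - y.1)‖ := R'.le_opNorm _
        _ ≤ ‖R'‖ * (1 / (2 * (‖R'‖ + 1)) * ‖x.1 - y.1‖) := by
            exact mul_le_mul_of_nonneg_left h1 (norm_nonneg _)
        _ ≤ (‖R'‖ + 1) * (1 / (2 * (‖R'‖ + 1)) * ‖x.1 - y.1‖) := by
            apply mul_le_mul_of_nonneg_right (by linarith)
            positivity
        _ = 1 / 2 * ‖x.1 - y.1‖ := by
            have : ‖R'‖ + 1 ≠ 0 := by positivity
            field_simp
    have h4 : ‖x.1 - y.1‖ ≤ ‖(x.1 - y.1) - R (L (x.1 - y.1))‖ + ‖R (L (x.1 - y.1))‖ := by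
      have := norm_add_le ((x.1 - y.1) - R (L (x.1 - y.1))) (R (L (x.1 - y.1)))
      rwa [sub_add_cancel] at this
    rw [h2, Subtype.dist_eq, dist_eq_norm]
    simp only [NNReal.coe_ofNat]
    linarith
  have h5 : dimH (S ∩ U) = dimH (univ : Set ↥(S ∩ U)) := by
    have := (isometry_subtype_coe (s := S ∩ U)).dimH_image univ
    rw [image_univ, Subtype.range_coe] at this
    exact this
  have h6 := hg.le_dimH_image univ
  have h7 : dimH (g '' univ) ≤ dimH (univ : Set (LinearMap.ker L)) := dimH_mono (subset_univ _)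
  rw [Real.dimH_univ_eq_finrank] at h7
  rw [h5]
  refine (h6.trans h7).trans (le_of_eq ?_)
  congr 1
  have h8 := L.finrank_range_add_finrank_ker
  rw [LinearMap.range_eq_top.mpr hL, finrank_top] at h8
  omega

/-- from local to global -/
theorem dimH_le_of_local {X : Type*} [EMetricSpace X] [SecondCountableTopology X] (S : Set X) (d : ENNReal)
    (h : ∀ x ∈ S, ∃ U ∈ 𝓝 x, dimH (S ∩ U) ≤ d) : dimH S ≤ d := by
  by_contra hd
  push Not at hd
  obtain ⟨x, hx, hxt⟩ := exists_mem_nhdsWithin_lt_dimH_of_lt_dimH hd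
  obtain ⟨U, hU, hUd⟩ := h x hx
  exact absurd (hxt (S ∩ U) (inter_mem_nhdsWithin S hU)) (not_lt.mpr hUd)

end Pool.Agent.Helper69.CD
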