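import Mathlib
import Pool.Agent.Helper69.CD.Dim

/-!
The Hausdorff dimension of a set of matrices on which bilinear functionals of the differences vanish.
-/

namespace Pool.Agent.Helper69.CD

open Filter Topology Set Module

variable {n : ℕ}

/-- `p^T Z q` -/
def pair (p q : Fin n → ℝ) (Z : Fin n → Fin n → ℝ) : ℝ := ∑ i, ∑ j, p i * Z i j * q j

/-- the functionals `Z ↦ p_k^T Z q_k` -/
def pairL {κ : Type*} (p q : κ → Fin n → ℝ) : (Fin n → Fin n → ℝ) →ₗ[ℝ] (κ → ℝ) where
  toFun Z k := pair (p k) (q k) Z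
  map_add' Z W := by
    funext k
    simp only [pair, Pi.add_apply, mul_add, add_mul, Finset.sum_add_distrib]
  map_smul' c Z := by
    funext k
    simp only [pair, Pi.smul_apply, smul_eq_mul, RingHom.id_apply, Finset.mul_sum]
    refine Finset.sum_congr rfl fun i _ => Finset.sum_congr rfl fun j _ => ?_
    ring

theorem pairL_apply {κ : Type*} (p q : κ → Fin n → ℝ) (Z : Fin n → Fin n → ℝ) (k : κ) :
    pairL p q Z k = pair (p k) (q k) Z := rfl

theorem abs_pair_le {p q p' q' : Fin n → ℝ} {Z : Fin n → Fin n → ℝ} :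
    |pair p q Z - pair p' q' Z| ≤ (∑ i, ∑ j, |p i * q j - p' i * q' j|) * ‖Z‖ := by
  have e : pair p q Z - pair p' q' Z = ∑ i, ∑ j, (p i * q j - p' i * q' j) * Z i j := by
    simp only [pair, ← Finset.sum_sub_distrib]
    refine Finset.sum_congr rfl fun i _ => Finset.sum_congr rfl fun j _ => ?_
    ring
  rw [e, Finset.sum_mul]
  refine (Finset.abs_sum_le_sum_abs _ _).trans (Finset.sum_le_sum fun i _ => ?_)
  rw [Finset.sum_mul]
  refine (Finset.abs_sum_le_sum_abs _ _).trans (Finset.sum_le_sum fun j _ => ?_)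
  rw [abs_mul]
  refine mul_le_mul_of_nonneg_left ?_ (abs_nonneg _)
  have h1 := norm_le_pi_norm Z i
  have h2 := norm_le_pi_norm (Z i) j
  rw [Real.norm_eq_abs] at h2
  exact h2.trans h1

theorem near_small {κ : Type*} [Fintype κ] (u v : κ → (Fin n → Fin n → ℝ) → Fin n → ℝ)
    (a : Fin n → Fin n → ℝ) (hu : ∀ k, ContinuousAt (u k) a) (hv : ∀ k, ContinuousAt (v k) a)
    (S : Set (Fin n → Fin n → ℝ))
    (hS : ∃ U ∈ 𝓝 a, ∀ x ∈ S ∩ U, ∀ y ∈ S ∩ U, ∀ k, pair (u k x) (v k y) (x - y) = 0) :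
    ∀ ε : ℝ, 0 < ε → ∃ U ∈ 𝓝 a, ∀ x ∈ S ∩ U, ∀ y ∈ S ∩ U,
      ‖pairL (fun k => u k a) (fun k => v k a) (x - y)‖ ≤ ε * ‖x - y‖ := by
  intro ε hε
  obtain ⟨U0, hU0, h0⟩ := hS
  have hc : ∀ k, ∀ᶠ p : (Fin n → Fin n → ℝ) × (Fin n → Fin n → ℝ) in 𝓝 (a, a),
      ∑ i, ∑ j, |u k a i * v k a j - u k p.1 i * v k p.2 j| < ε := by
    intro k
    have h1 : ContinuousAt (fun p : (Fin n → Fin n → ℝ) × (Fin n → Fin n → ℝ) =>
        ∑ i, ∑ j, |u k a i * v k a j - u k p.1 i * v k p.2 j|) (a, a) := by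
      refine tendsto_finsetSum _ fun i _ => tendsto_finsetSum _ fun j _ => ?_
      have c1 : ContinuousAt (fun p : (Fin n → Fin n → ℝ) × (Fin n → Fin n → ℝ) => u k p.1 i) (a, a) :=
        (continuous_apply i).continuousAt.comp ((hu k).comp_of_eq continuousAt_fst rfl)
      have c2 : ContinuousAt (fun p : (Fin n → Fin n → ℝ) × (Fin n → Fin n → ℝ) => v k p.2 j) (a, a) :=
        (continuous_apply j).continuousAt.comp ((hv k).comp_of_eq continuousAt_snd rfl)
      exact ((continuousAt_const.sub (c1.mul c2)).abs)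
    have h2 : ∑ i, ∑ j, |u k a i * v k a j - u k (a, a).1 i * v k (a, a).2 j| < ε := by simpa using hε
    exact h1.eventually_lt_const h2
  have hall : ∀ᶠ p : (Fin n → Fin n → ℝ) × (Fin n → Fin n → ℝ) in 𝓝 (a, a), ∀ k,
      ∑ i, ∑ j, |u k a i * v k a j - u k p.1 i * v k p.2 j| < ε := eventually_all.mpr hc
  rw [nhds_prod_eq] at hall
  obtain ⟨V, hV, hV2⟩ := (𝓝 a).basis_sets.prod_self.eventually_iff.mp hall
  refine ⟨U0 ∩ V, inter_mem hU0 hV, fun x hx y hy => ?_⟩
  rw [pi_norm_le_iff_of_nonneg (by positivity)]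
  intro k
  rw [pairL_apply, Real.norm_eq_abs]
  have h1 := h0 x ⟨hx.1, hx.2.1⟩ y ⟨hy.1, hy.2.1⟩ k
  have h2 := abs_pair_le (p := u k a) (q := v k a) (p' := u k x) (q' := v k y) (Z := x - y)
  rw [h1, sub_zero] at h2
  refine h2.trans (mul_le_mul_of_nonneg_right ?_ (norm_nonneg _))
  exact (@hV2 (x, y) ⟨hx.2.2, hy.2.2⟩ k).le

/-- independent rank one matrices give independent functionals -/
theorem pairL_surjective {κ : Type*} [Fintype κ] (p q : κ → Fin n → ℝ)
    (h : LinearIndependent ℝ fun k => (fun i j => p k i * q k j : Fin n → Fin n → ℝ)) :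
    Function.Surjective (pairL p q) := by
  classical
  -- the transpose map is injective
  rw [← LinearMap.range_eq_top]
  by_contra hne
  obtain ⟨φ, hφ, hφ0⟩ := Submodule.exists_dual_map_eq_bot_of_lt_top (lt_top_iff_ne_top.mpr hne) inferInstance
  have hφ1 : ∀ Z, φ (pairL p q Z) = 0 := by
    intro Z
    have h1 : φ (pairL p q Z) ∈ (LinearMap.range (pairL p q)).map φ :=
      Submodule.mem_map_of_mem (LinearMap.mem_range_self _ Z)
    rw [hφ0] at h1
    simpa using h1
  have hlin : ∀ w : κ → ℝ, φ w = ∑ k, w k * φ (Pi.single k 1) := by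
    intro w
    have e : w = ∑ k, w k • (Pi.single k 1 : κ → ℝ) := by
      funext l
      simp [Finset.sum_apply, Pi.single_apply]
    conv_lhs => rw [e]
    simp [map_sum]
  have h2 : ∑ k, φ (Pi.single k 1) • (fun i j => p k i * q k j : Fin n → Fin n → ℝ) = 0 := by
    funext i j
    have h3 := hφ1 (fun i' j' => if i' = i ∧ j' = j then 1 else 0)
    rw [hlin] at h3
    have h4 : ∀ k, pairL p q (fun i' j' => if i' = i ∧ j' = j then 1 else 0) k = p k i * q k j := by
      intro k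
      rw [pairL_apply, pair]
      rw [Finset.sum_eq_single i, Finset.sum_eq_single j]
      · simp
      · intro j' _ hj'; simp [hj']
      · simp
      · intro i' _ hi'
        refine Finset.sum_eq_zero fun j' _ => ?_
        simp [hi']
      · simp
    simp only [h4] at h3
    simp only [Finset.sum_apply, Pi.smul_apply, smul_eq_mul, Pi.zero_apply]
    rw [← h3]
    refine Finset.sum_congr rfl fun k _ => mul_comm _ _
  have h5 := Fintype.linearIndependent_iff.mp h (fun k => φ (Pi.single k 1)) h2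
  apply hφ
  ext k
  simpa using h5 k

/-- **Dimension bound.** -/
theorem dimH_pair {κ : Type*} [Fintype κ] (u v : κ → (Fin n → Fin n → ℝ) → Fin n → ℝ)
    (S : Set (Fin n → Fin n → ℝ))
    (hu : ∀ a ∈ S, ∀ k, ContinuousAt (u k) a) (hv : ∀ a ∈ S, ∀ k, ContinuousAt (v k) a)
    (hS : ∀ x ∈ S, ∀ y ∈ S, ∀ k, pair (u k x) (v k y) (x - y) = 0)
    (hi : ∀ a ∈ S, LinearIndependent ℝ fun k => (fun i j => u k a i * v k a j : Fin n → Fin n → ℝ)) :
    dimH S ≤ ((n ^ 2 - Fintype.card κ : ℕ) : ENNReal) := by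
  refine dimH_le_of_local S _ fun a ha => ?_
  obtain ⟨U, hU, h⟩ := dimH_local S a (pairL (fun k => u k a) (fun k => v k a))
    (pairL_surjective _ _ (hi a ha))
    (near_small u v a (hu a ha) (hv a ha) S ⟨univ, univ_mem, fun x hx y hy k => hS x hx.1 y hy.1 k⟩)
  refine ⟨U, hU, h.trans (le_of_eq ?_)⟩
  congr 2
  · simp [Module.finrank_pi_fintype, sq]
  · simp

end Pool.Agent.Helper69.CD
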