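import Mathlib
import Pool.Agent.Helper85.CD.Basic
import Pool.Agent.Helper69.CD.Near

/-!
The real `P`-matrices for which the gradients of the vanishing almost principal minors span a space of
dimension at least `r` form a set of Hausdorff dimension at most `n ^ 2 - r`.
-/

namespace Pool.Agent.Helper69.CD

open Matrix Filter Topology Set Module Pool.Agent.Helper85.CD Pool.Agent.Helper21.GK

variable {n : ℕ}

theorem pair_eq (p q : Fin n → ℝ) (Z : Mat n) : pair p q Z = p ⬝ᵥ (Z *ᵥ q) := by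
  simp only [pair, dotProduct, Matrix.mulVec, Finset.mul_sum]
  refine Finset.sum_congr rfl fun i _ => Finset.sum_congr rfl fun j _ => by ring

/-- **Dimension bound.** -/
theorem dimH_W_le (n r : ℕ) :
    dimH {M : Fin n → Fin n → ℝ | RP (Matrix.of M) ∧ r ≤ finrank ℝ (W (Matrix.of M))} ≤
      ((n ^ 2 - r : ℕ) : ENNReal) := by
  let S : (Fin r → Finset (Fin n) × Fin n × Fin n) → Set (Fin n → Fin n → ℝ) := fun σ =>
    {M | RP (Matrix.of M) ∧ (∀ k, Pool.Agent.Helper85.CD.Z (Matrix.of M) (σ k).1 (σ k).2.1 (σ k).2.2) ∧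
      LinearIndependent ℝ fun k => (fun i j => uv (Matrix.of M) (σ k).1 (σ k).2.1 i *
        vv (Matrix.of M) (σ k).1 (σ k).2.2 j : Fin n → Fin n → ℝ)}
  have hcov : {M : Fin n → Fin n → ℝ | RP (Matrix.of M) ∧ r ≤ finrank ℝ (W (Matrix.of M))} ⊆ ⋃ σ, S σ := by
    rintro M ⟨hP, hr⟩
    set G : Set (Mat n) := {N | ∃ K i j, Pool.Agent.Helper85.CD.Z (Matrix.of M) K i j ∧
      N = vecMulVec (uv (Matrix.of M) K i) (vv (Matrix.of M) K j)} with hG
    obtain ⟨b, hbG, hb1, hb2⟩ := exists_linearIndependent ℝ G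
    let _ : Fintype b := hb2.setFinite.fintype
    have hfin : finrank ℝ (W (Matrix.of M)) = Fintype.card b := by
      have h1 : W (Matrix.of M) = Submodule.span ℝ b := by rw [hb1]; rfl
      rw [h1, finrank_span_set_eq_card (s := b) hb2, Set.toFinset_card]
    rw [hfin] at hr
    obtain ⟨e⟩ : Nonempty (Fin r ↪ b) := Function.Embedding.nonempty_of_card_le (by simpa using hr)
    have hex : ∀ k : Fin r, ∃ t : Finset (Fin n) × Fin n × Fin n,
        Pool.Agent.Helper85.CD.Z (Matrix.of M) t.1 t.2.1 t.2.2 ∧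
          (e k : Mat n) = vecMulVec (uv (Matrix.of M) t.1 t.2.1) (vv (Matrix.of M) t.1 t.2.2) := by
      intro k
      obtain ⟨K, i, j, h1, h2⟩ := hbG (e k).2
      exact ⟨(K, i, j), h1, h2⟩
    choose σ hσ1 hσ2 using hex
    refine mem_iUnion.mpr ⟨σ, hP, hσ1, ?_⟩
    have h3 := hb2.comp e e.injective
    have h4 : (fun k => (fun i j => uv (Matrix.of M) (σ k).1 (σ k).2.1 i *
        vv (Matrix.of M) (σ k).1 (σ k).2.2 j : Fin n → Fin n → ℝ)) =
        fun k => ((e k : Mat n) : Fin n → Fin n → ℝ) := by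
      funext k
      rw [hσ2 k]
      rfl
    rw [h4]
    exact h3
  refine (dimH_mono hcov).trans ?_
  rw [dimH_iUnion]
  refine iSup_le fun σ => ?_
  have h := dimH_pair (κ := Fin r) (fun k M => uv (Matrix.of M) (σ k).1 (σ k).2.1)
    (fun k M => vv (Matrix.of M) (σ k).1 (σ k).2.2) (S σ)
    (fun a ha k => continuousAt_uv (A := Matrix.of a) ha.1 (σ k).1 (σ k).2.1)
    (fun a ha k => by
      have h1 := continuousAt_uv (A := (Matrix.of a)ᵀ) ha.1.transpose (σ k).1 (σ k).2.2
      exact ContinuousAt.comp (f := fun B : Mat n => Bᵀ) h1 (continuous_id.matrix_transpose).continuousAt)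
    (fun x hx y hy k => by
      have h1 := scr_sub (A := Matrix.of y) (B := Matrix.of x) hy.1 hx.1 (hy.2.1 k).1.1 (hy.2.1 k).1.2.1
      rw [(hx.2.1 k).2, (hy.2.1 k).2, sub_zero] at h1
      exact (pair_eq (uv (Matrix.of x) (σ k).1 (σ k).2.1) (vv (Matrix.of y) (σ k).1 (σ k).2.2)
        (Matrix.of x - Matrix.of y)).trans h1.symm)
    (fun a ha => ha.2.2)
  simpa using h

end Pool.Agent.Helper69.CD
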